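import Mathlib

set_option autoImplicit false

namespace Pool.Agent.Results.MP_e93574_an.FixedPoint

theorem gamma_nat (γ : ℝ → ℝ) (h0 : γ 0 = 0)
    (hsub : ∀ s t : ℝ, 0 ≤ s → 0 ≤ t → γ (s + t) ≤ γ s + γ t) (t : ℝ) (ht : 0 ≤ t) :
    ∀ n : ℕ, γ (n * t) ≤ n * γ t
  | 0 => by simp [h0]
  | n + 1 => by
    have := gamma_nat γ h0 hsub t ht n
    have h2 := hsub (n * t) t (by positivity) ht
    push_cast
    rw [add_mul, one_mul]
    linarith

theorem gamma_lin (γ : ℝ → ℝ) (h0 : γ 0 = 0) (hnn : ∀ t, 0 ≤ t → 0 ≤ γ t)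
    (hmono : MonotoneOn γ (Set.Ici 0))
    (hsub : ∀ s t : ℝ, 0 ≤ s → 0 ≤ t → γ (s + t) ≤ γ s + γ t) (D : ℝ) (hD : 0 < D)
    (t : ℝ) (ht : 0 < t) (htD : t ≤ D) : γ D / (2 * D) * t ≤ γ t := by
  set n : ℕ := ⌈D / t⌉₊ with hn
  have h1 : D / t ≤ n := Nat.le_ceil _
  have h2 : (n : ℝ) < D / t + 1 := Nat.ceil_lt_add_one (by positivity)
  have h3 : 1 ≤ D / t := by rw [le_div_iff₀ ht]; linarith
  have h4 : D ≤ n * t := by rwa [div_le_iff₀ ht] at h1
  have h5 : γ D ≤ γ (n * t) := hmono hD.le (show (0:ℝ) ≤ n * t by positivity) h4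
  have h6 := gamma_nat γ h0 hsub t ht.le n
  have h7 : (n : ℝ) * t ≤ 2 * D := by
    have : (n : ℝ) ≤ 2 * (D / t) := by linarith
    calc (n : ℝ) * t ≤ 2 * (D / t) * t := by gcongr
      _ = 2 * D := by field_simp
  have h8 := hnn t ht.le
  rw [div_mul_eq_mul_div, div_le_iff₀ (by positivity)]
  nlinarith

theorem result (X : Type*) [MetricSpace X] [CompleteSpace X] [Nonempty X]
    (θ γ : ℝ → ℝ) (ε₀ : ℝ) (hε₀ : 0 < ε₀)
    (hθ : ∀ t, 0 ≤ t → 0 ≤ θ t)
    (hγnn : ∀ t, 0 ≤ t → 0 ≤ γ t)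
    (hγc : ContinuousOn γ (Set.Ici 0))
    (hγm : MonotoneOn γ (Set.Ici 0))
    (hγs : ∀ s t : ℝ, 0 ≤ s → 0 ≤ t → γ (s + t) ≤ γ s + γ t)
    (hγ0 : ∀ t, 0 ≤ t → (γ t = 0 ↔ t = 0))
    (hA : ∀ t, 0 ≤ t → θ t ≤ ε₀ → γ t ≤ θ t)
    (T : X → Set X)
    (hT : ∀ x, (T x).Nonempty ∧ IsClosed (T x) ∧ Bornology.IsBounded (T x))
    (hH : ∀ x y, Metric.hausdorffDist (T x) (T y) ≤ dist x y - θ (dist x y)) :
    ∃ x, x ∈ T x := by
  by_contra hno
  push Not at hno
  obtain ⟨x0⟩ := ‹Nonempty X›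
  obtain ⟨x1, hx1⟩ := (hT x0).1
  have hD : 0 < dist x0 x1 := dist_pos.2 (fun h => hno x0 (h ▸ hx1))
  set D := dist x0 x1 with hDdef
  have hγD : 0 < γ D := lt_of_le_of_ne (hγnn D hD.le) (fun h => hD.ne' ((hγ0 D hD.le).1 h.symm))
  set c : ℝ := min (min (γ D / (2 * D)) (ε₀ / D)) 1 with hc
  have hcpos : 0 < c := by positivity
  have hc1 : c ≤ 1 := min_le_right _ _
  have hlin : ∀ t, 0 < t → t ≤ D → c * t ≤ θ t := by
    intro t ht htD
    by_cases h : θ t ≤ ε₀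
    · have h1 := gamma_lin γ ((hγ0 0 le_rfl).2 rfl) hγnn hγm hγs D hD t ht htD
      have h2 : c ≤ γ D / (2 * D) := le_trans (min_le_left _ _) (min_le_left _ _)
      have h3 := hA t ht.le h
      nlinarith
    · have h2 : c ≤ ε₀ / D := le_trans (min_le_left _ _) (min_le_right _ _)
      rw [le_div_iff₀ hD] at h2
      nlinarith
  have hfin : ∀ x y, Metric.hausdorffEDist (T x) (T y) ≠ ⊤ := fun x y =>
    Metric.hausdorffEDist_ne_top_of_nonempty_of_bounded (hT x).1 (hT y).1 (hT x).2.2 (hT y).2.2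
  have hstep : ∀ p : {p : X × X // p.2 ∈ T p.1 ∧ dist p.1 p.2 ≤ D},
      ∃ q : {p : X × X // p.2 ∈ T p.1 ∧ dist p.1 p.2 ≤ D},
        q.1.1 = p.1.2 ∧ dist q.1.1 q.1.2 ≤ (1 - c / 2) * dist p.1.1 p.1.2 := by
    rintro ⟨⟨a, b⟩, hab, hle⟩
    have hpos : 0 < dist a b := dist_pos.2 (fun h => hno a (by simpa [← h] using hab))
    have h1 := hlin _ hpos hle
    have h2 : Metric.hausdorffDist (T a) (T b) < (1 - c / 2) * dist a b := by
      have := hH a b
      nlinarith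
    obtain ⟨z, hz, hbz⟩ := Metric.exists_dist_lt_of_hausdorffDist_lt hab h2 (hfin a b)
    refine ⟨⟨(b, z), hz, ?_⟩, rfl, hbz.le⟩
    simp only at hle ⊢
    nlinarith
  choose f hf1 hf2 using hstep
  let p : ℕ → {p : X × X // p.2 ∈ T p.1 ∧ dist p.1 p.2 ≤ D} := fun n => f^[n] ⟨(x0, x1), hx1, le_rfl⟩
  have hp : ∀ n, p (n + 1) = f (p n) := fun n => Function.iterate_succ_apply' f n _
  let x : ℕ → X := fun n => (p n).1.1
  have hx : ∀ n, x (n + 1) = (p n).1.2 := fun n => by simp only [x, hp, hf1]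
  have hgeo : ∀ n, dist (p n).1.1 (p n).1.2 ≤ D * (1 - c / 2) ^ n := by
    intro n
    induction n with
    | zero => simp [p, hDdef]
    | succ n ih =>
      rw [hp]
      refine le_trans (hf2 _) ?_
      rw [pow_succ]
      have : 0 ≤ 1 - c / 2 := by linarith
      nlinarith
  have hcau : CauchySeq x := by
    refine cauchySeq_of_le_geometric (1 - c / 2) D (by linarith) (fun n => ?_)
    rw [hx]; exact hgeo n
  obtain ⟨z, hz⟩ := cauchySeq_tendsto_of_complete hcau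
  apply hno z
  rw [(hT z).2.1.mem_iff_infDist_zero (hT z).1]
  refine le_antisymm ?_ Metric.infDist_nonneg
  have hlim : Filter.Tendsto (fun n => dist z (x (n + 1)) + dist (x n) z) Filter.atTop (nhds 0) := by
    have h1 : Filter.Tendsto (fun n => dist (x n) z) Filter.atTop (nhds 0) :=
      tendsto_iff_dist_tendsto_zero.1 hz
    have h2 : Filter.Tendsto (fun n => dist z (x (n + 1))) Filter.atTop (nhds 0) := by
      simp only [dist_comm z]
      exact h1.comp (Filter.tendsto_add_atTop_nat 1)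
    simpa using h2.add h1
  refine ge_of_tendsto' hlim (fun n => ?_)
  have h1 : x (n + 1) ∈ T (x n) := by rw [hx]; exact (p n).2.1
  have h2 := Metric.infDist_le_hausdorffDist_of_mem h1 (hfin (x n) z)
  have h3 := hH (x n) z
  have h4 := hθ _ (dist_nonneg (x := x n) (y := z))
  have h5 := Metric.infDist_le_infDist_add_dist (x := z) (y := x (n + 1)) (s := T z)
  linarith

end Pool.Agent.Results.MP_e93574_an.FixedPoint
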